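import Pool.Agent.Helper8.T2.Int

/-!
The hitting set for polynomials in few algebraically independent products of read-k formulas.
-/

namespace Pool.Agent.Helper8.T2

open MvPolynomial ReadKTree
open Pool.Agent.Helper5 (gen genPoly eval_genPoly G_mono)

/-- a point of the generator, for polynomials in products of transcendence degree at most `k` -/
theorem exists_seed (w κ k n d : ℕ) {N m : ℕ} (g : Fin N → Fin m → MvPolynomial (Fin n) ℚ)
    (hg : ∀ i j, RK w n d κ (g i j)) (e : Fin N → Fin m → ℕ)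
    (htr : ∀ b : Finset (Fin N),
      AlgebraicIndepOn ℚ (fun i => ∏ j, g i j ^ e i j) (b : Set (Fin N)) → b.card ≤ k)
    (f : MvPolynomial (Fin n) ℚ)
    (hfmem : f ∈ Algebra.adjoin ℚ (Set.range fun i => ∏ j, g i j ^ e i j)) (hf : f ≠ 0) :
    ∃ s, eval (gen n (Cst w κ k * (Nat.clog 2 n + 1)) s) f ≠ 0 := by
  classical
  set T : Fin N → MvPolynomial (Fin n) ℚ := fun i => ∏ j, g i j ^ e i j with hT
  set c₀ := Tree.expo (w + w + 1) (kbig w κ k) * (Nat.clog 2 (kbig w κ k * n) + 1) with hc₀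
  set 𝒢 : Set (MvPolynomial (Fin n) ℚ) := {q | RK w n d κ q} with h𝒢
  have hg' : ∀ i j, g i j ∈ 𝒢 := hg
  have hTmem : ∀ i, T i ∈ Submonoid.closure 𝒢 := fun i =>
    Submonoid.prod_mem _ fun j _ => Submonoid.pow_mem _ (Submonoid.subset_closure (hg' i j)) _
  have h1 := intSt n k (tpar w κ k) c₀ 𝒢
    {a : MvPolynomial (Fin n) ℚ | RK w n (d + 1) (κ + 1) a} (fun g hg r hr J => H2 w n d κ k g hg r hr J)
    (by
      intro M hM a ha J hdet
      rcases Nat.eq_zero_or_pos w with hw | hw
      · subst hw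
        rcases Nat.eq_zero_or_pos M with hM0 | hM0
        · subst hM0
          simp
        · obtain ⟨p, r, _, _, x, _⟩ := ha ⟨0, hM0⟩
          exact x.elim0
      · have h2 := (minor_mem hw a ha J).mono (κ' := kbig w κ k) (by
          unfold kbig
          exact Nat.mul_le_mul (Nat.factorial_le hM) (Nat.mul_le_mul_right _ hM))
        exact gen_hits h2 hdet)
    T hTmem htr f hfmem hf
  obtain ⟨s, hs⟩ := exists_seed_of_split f h1
  have hmono := G_mono (n := n) (seeds_le w κ k n)
  obtain ⟨s', hs'⟩ := hmono ⟨s, rfl⟩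
  rw [← hs'] at hs
  exact ⟨s', hs⟩

theorem grid_subset_points {n c B D : ℕ} (hn : 0 < n) (h : B ≤ D + 1) :
    grid n c B ⊆ points n c D := by
  unfold grid points
  apply Finset.image_subset_image
  apply Finset.product_subset_product
  · apply Fintype.piFinset_subset
    intro _
    exact Finset.range_mono h
  · apply Fintype.piFinset_subset
    intro _
    refine Finset.range_mono (h.trans ?_)
    exact Nat.succ_le_succ (Nat.le_mul_of_pos_left _ hn)

/-- **Main theorem.** -/
theorem hit (w κ k n d : ℕ) {N m : ℕ} (g : Fin N → Fin m → MvPolynomial (Fin n) ℚ)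
    (hg : ∀ i j, RK w n d κ (g i j)) (e : Fin N → Fin m → ℕ) (c : Fin N → ℚ)
    (htr : ∀ b : Finset (Fin N),
      AlgebraicIndepOn ℚ (fun i => ∏ j, g i j ^ e i j) (b : Set (Fin N)) → b.card ≤ k)
    (D : ℕ) (hD : (∑ i, C (c i) * ∏ j, g i j ^ e i j).totalDegree ≤ D ∨
      2 ^ (N + 1) * (N * m * n ^ 2 * κ * d) + N ≤ D)
    (hf : ∑ i, C (c i) * ∏ j, g i j ^ e i j ≠ 0) :
    ∃ x ∈ points n (Cst w κ k * (Nat.clog 2 n + 1)) D,
      eval x (∑ i, C (c i) * ∏ j, g i j ^ e i j) ≠ 0 := by
  classical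
  obtain ⟨s, hs⟩ := exists_seed w κ k n d g hg e htr (∑ i, C (c i) * ∏ j, g i j ^ e i j) (by
    refine Subalgebra.sum_mem _ fun i _ => ?_
    have h1 : C (c i) * ∏ j, g i j ^ e i j = c i • ∏ j, g i j ^ e i j := by
      rw [MvPolynomial.smul_eq_C_mul]
    rw [h1]
    exact Subalgebra.smul_mem _ (Algebra.subset_adjoin (Set.mem_range_self i)) _) hf
  rcases hD with hD | hD
  · exact Pool.Agent.Helper5.hit_grid _ D hD _ ⟨s, hs⟩
  rcases Nat.eq_zero_or_pos n with hn | hn
  · subst hn
    refine Pool.Agent.Helper5.hit_grid _ D ?_ _ ⟨s, hs⟩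
    have h1 : (∑ i, C (c i) * ∏ j, g i j ^ e i j).totalDegree = 0 := by
      rw [totalDegree_eq_zero_iff]
      intro m _ x
      exact x.elim0
    omega
  · obtain ⟨x, hx, hx0⟩ := grid_hit (L := N * m * n ^ 2 * κ * d) c g e (by
      calc (∑ i, ∑ j, (g i j).totalDegree) * n
          ≤ (∑ _i : Fin N, ∑ _j : Fin m, n * κ * d) * n :=
            Nat.mul_le_mul_right _ (Finset.sum_le_sum fun i _ =>
              Finset.sum_le_sum fun j _ => totalDegree_RK (hg i j))
        _ = N * m * n ^ 2 * κ * d := by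
            simp only [Finset.sum_const, Finset.card_univ, Fintype.card_fin, smul_eq_mul]
            ring) s hs
    exact ⟨x, grid_subset_points hn (Nat.succ_le_succ hD) hx, hx0⟩

end Pool.Agent.Helper8.T2
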