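import Pool.Agent.Helper8.T2.Rep

/-!
Hypothesis (H2) of the interface for the class of read-k vector formulas.
-/

namespace Pool.Agent.Helper8.T2

open MvPolynomial ReadKTree

variable {w n d : ℕ}

/-- the number of local parameters -/
def tpar (w κ k : ℕ) : ℕ := (k * κ) * (1 + 2 * (w * (w + 1))) + w * (w + 1)

theorem RK.X {κ : ℕ} (hw : 0 < w) (i : Fin n) : RK w n (d + 1) (κ + 1) (MvPolynomial.X i) := by
  classical
  refine ⟨_, _, Formula.leaf i (fun _ => Polynomial.X) (fun _ => by
    rw [Polynomial.natDegree_X]; omega), fun j => ?_, ⟨0, hw⟩, by simp⟩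
  by_cases h : j = i
  · subst h; simp
  · rw [Pi.single_eq_of_ne h]; omega

theorem exists_family {R : Type*} [Zero R] (S : Finset R) (t : ℕ) (ht : S.card ≤ t) :
    ∃ a : Fin t → R, (∀ i, a i ∈ S ∨ a i = 0) ∧ (S : Set R) ⊆ Set.range a := by
  classical
  refine ⟨fun i => S.toList.getD i 0, fun i => ?_, fun x hx => ?_⟩
  · by_cases h : i.val < S.toList.length
    · left
      dsimp only
      rw [List.getD_eq_getElem _ _ h]
      exact Finset.mem_toList.mp (List.getElem_mem h)
    · right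
      exact List.getD_eq_default _ _ (not_lt.mp h)
  · obtain ⟨i, hi, h⟩ := List.getElem_of_mem (Finset.mem_toList.mpr (Finset.mem_coe.mp hx))
    rw [Finset.length_toList] at hi
    refine ⟨⟨i, hi.trans_le ht⟩, ?_⟩
    dsimp only
    rw [List.getD_eq_getElem _ _ (by rwa [Finset.length_toList])]
    exact h

theorem H2 (w n d κ k : ℕ) (g : MvPolynomial (Fin n) ℚ) (hg : RK w n d κ g) (ρ : ℕ)
    (hρ : ρ ≤ k) (J : Fin ρ → Fin n) :
    ∃ a : Fin (tpar w κ k) → MvPolynomial (Fin n) ℚ, (∀ i, RK w n (d + 1) (κ + 1) (a i)) ∧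
      ∀ m, coeff m (aeval (fun v => C (X v) + ∑ j, if J j = v then X j else 0) g :
        MvPolynomial (Fin ρ) (MvPolynomial (Fin n) ℚ)) ∈ Algebra.adjoin ℚ (Set.range a) := by
  classical
  obtain ⟨p, r, hp, hr, e, rfl⟩ := hg
  have hw : 0 < w := e.pos
  set Ψ : MvPolynomial (Fin n) ℚ →ₐ[ℚ] MvPolynomial (Fin ρ) (MvPolynomial (Fin n) ℚ) :=
    aeval (fun v => C (X v) + ∑ j, if J j = v then X j else 0) with hΨ
  set I : Finset (Fin n) := Finset.univ.image J with hI
  have h1 : ∀ i, i ∉ I → Ψ (X i) = C (X i) := by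
    intro i hi
    rw [hΨ, aeval_X]
    have : ∑ j, (if J j = i then (X j : MvPolynomial (Fin ρ) (MvPolynomial (Fin n) ℚ)) else 0)
        = 0 := by
      apply Finset.sum_eq_zero
      intro j _
      rw [if_neg]
      rintro rfl
      exact hi (Finset.mem_image_of_mem _ (Finset.mem_univ _))
    rw [this, add_zero]
  have h2 : ∀ i, Ψ (X i) ∈ coefAlg (Algebra.adjoin ℚ {(X i : MvPolynomial (Fin n) ℚ)}) := by
    intro i
    rw [hΨ, aeval_X]
    refine Subalgebra.add_mem _ (C_mem_coefAlg (Algebra.subset_adjoin rfl))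
      (Subalgebra.sum_mem _ fun j _ => ?_)
    split_ifs
    · intro m
      rw [coeff_X]
      split_ifs
      · exact Subalgebra.one_mem _
      · exact Subalgebra.zero_mem _
    · exact Subalgebra.zero_mem _
  obtain ⟨A, v, r₁, z, S, h⟩ := exists_lrep Ψ I h1 h2 hp
  have hIcard : I.card ≤ k := (Finset.card_image_le.trans (by simp)).trans hρ
  have hN : ∑ i ∈ I, r i ≤ k * κ := by
    calc ∑ i ∈ I, r i ≤ ∑ _i ∈ I, κ := Finset.sum_le_sum fun i _ => hr i
      _ = I.card * κ := by rw [Finset.sum_const, smul_eq_mul]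
      _ ≤ k * κ := Nat.mul_le_mul_right _ hIcard
  have hcard : (S ∪ cxSet A v).card ≤ tpar w κ k := by
    refine (Finset.card_union_le _ _).trans ?_
    have h3 := card_cxSet A v
    have h4 : S.card ≤ (k * κ) * (1 + 2 * (w * (w + 1))) := by
      rcases h.card with ⟨_, h5⟩ | h5
      · rw [h5]; simp
      · have h6 := Nat.mul_le_mul_right (1 + 2 * (w * (w + 1))) hN
        omega
    unfold tpar
    omega
  obtain ⟨a, ha1, ha2⟩ := exists_family (S ∪ cxSet A v) _ hcard
  refine ⟨a, ?_, ?_⟩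
  · intro i
    rcases ha1 i with h3 | h3
    · rw [Finset.mem_union] at h3
      rcases h3 with h3 | h3
      · rcases h.cls _ h3 with ⟨j, hj⟩ | ⟨p', r', b1, b2, b3, b4⟩
        · rw [hj]; exact RK.X hw j
        · exact ⟨p', r', formula_deg (Nat.le_succ d) b1,
            fun i => ((b2 i).trans (hr i)).trans (Nat.le_succ _), b3, b4⟩
      · obtain ⟨p', b1, b3, b4⟩ := cx_class h.cx _ h3
        exact ⟨p', r₁, formula_deg (Nat.le_succ d) b1,
          fun i => ((h.le i).trans (hr i)).trans (Nat.le_succ _), b3, b4⟩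
    · rw [h3]
      have := (RK.C (n := n) (d := d + 1) hw 0).mono (Nat.zero_le (κ + 1))
      rwa [C_0] at this
  · have h3 := h.shift h1 (S' := Set.range a) (fun x hx => ha2 (by
      rw [Finset.coe_union]; exact Or.inl hx)) (fun x hx => ha2 (by
      rw [Finset.coe_union]; exact Or.inr hx)) e
    exact h3

/-- Jacobian minors stay in the class -/
theorem minor_mem {w n d κ M : ℕ} (hw : 0 < w) (a : Fin M → MvPolynomial (Fin n) ℚ)
    (ha : ∀ i, RK w n d κ (a i)) (J : Fin M → Fin n) :
    RK (w + w) n d (M.factorial * (M * κ))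
      (Matrix.of fun i j => pderiv (J j) (a i) : Matrix (Fin M) (Fin M) _).det :=
  RK.det (by omega) _ fun i j => (ha i).pderiv (J j)

end Pool.Agent.Helper8.T2
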