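import Pool.Agent.Helper8.T2.Stmt

/-!
Closure properties of the class of components of read-k vector formulas.
-/

namespace Pool.Agent.Helper8.T2

open MvPolynomial ReadKTree

variable {w n d : ℕ}

/-- a linear map applied to the output -/
theorem formula_lin {w : ℕ} {p : Fin w → MvPolynomial (Fin n) ℚ} {r : Fin n → ℕ}
    (h : Formula w n d p r) (hw : 0 < w) (A : Fin w → Fin w → ℚ) :
    Formula w n d (fun a => ∑ b, C (A a b) * p b) r := by
  classical
  have h1 := Formula.gate (fun a b c => A a b * (if c = ⟨0, hw⟩ then 1 else 0)) h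
    (Formula.const (n := n) (d := d) (fun _ : Fin w => (1 : ℚ)))
  rw [add_zero] at h1
  convert h1 using 2 with a
  apply Finset.sum_congr rfl
  intro b _
  rw [Finset.sum_eq_single (⟨0, hw⟩ : Fin w)]
  · simp
  · intro c _ hc; simp [hc]
  · intro h; exact absurd (Finset.mem_univ _) h

/-- padding with zeros -/
theorem formula_pad {w W : ℕ} (hwW : w ≤ W) {p : Fin w → MvPolynomial (Fin n) ℚ}
    {r : Fin n → ℕ} (h : Formula w n d p r) :
    Formula W n d (fun a => if h : a.val < w then p ⟨a, h⟩ else 0) r := by
  classical
  induction h with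
  | const v =>
    have h1 := Formula.const (n := n) (d := d)
      (fun a : Fin W => if h : a.val < w then v ⟨a, h⟩ else 0)
    convert h1 using 2 with a
    split_ifs <;> simp
  | leaf i F hF =>
    have h1 := Formula.leaf (n := n) (d := d) i
      (fun a : Fin W => if h : a.val < w then F ⟨a, h⟩ else 0) (by
        intro a
        split_ifs
        · exact hF _
        · simp)
    convert h1 using 2 with a
    split_ifs <;> simp
  | add _ _ hp hq =>
    have h1 := Formula.add hp hq
    convert h1 using 1
    funext a
    simp only [Pi.add_apply]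
    split_ifs <;> simp
  | @gate B p q r s _ _ hp hq =>
    have h1 := Formula.gate (fun a b c : Fin W =>
      if h : a.val < w ∧ b.val < w ∧ c.val < w then
        B ⟨a, h.1⟩ ⟨b, h.2.1⟩ ⟨c, h.2.2⟩ else 0) hp hq
    convert h1 using 2 with a
    have key : ∀ G : Fin w → MvPolynomial (Fin n) ℚ,
        ∑ b : Fin w, G b = ∑ b : Fin W, if h : b.val < w then G ⟨b, h⟩ else 0 := by
      intro G
      have h2 : ∑ b : Fin w, G b = ∑ b : Fin w,
          (fun b : Fin W => if h : b.val < w then G ⟨b, h⟩ else 0) (Fin.castLE hwW b) := by
        apply Finset.sum_congr rfl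
        intro b _
        simp
      rw [h2]
      have h3 := Finset.sum_map Finset.univ (Fin.castLEEmb hwW)
        (fun b : Fin W => if h : b.val < w then G ⟨b, h⟩ else 0)
      refine Eq.trans h3.symm ?_
      apply Finset.sum_subset (Finset.subset_univ _)
      intro b _ hb
      rw [dif_neg]
      intro hlt
      apply hb
      rw [Finset.mem_map]
      exact ⟨⟨b, hlt⟩, Finset.mem_univ _, rfl⟩
    by_cases ha : a.val < w
    · rw [dif_pos ha]
      change (∑ b, ∑ c, C (B ⟨a.val, ha⟩ b c) * p b * q c) = _
      rw [key]
      apply Finset.sum_congr rfl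
      intro b _
      by_cases hb : b.val < w
      · rw [dif_pos hb, key]
        apply Finset.sum_congr rfl
        intro c _
        by_cases hc : c.val < w
        · simp [ha, hb, hc]
        · simp [hc]
      · rw [dif_neg hb]
        symm
        apply Finset.sum_eq_zero
        intro c _
        simp [hb]
    · rw [dif_neg ha]
      symm
      apply Finset.sum_eq_zero
      intro b _
      apply Finset.sum_eq_zero
      intro c _
      simp [ha]

/-- first order jets: the derivative is computed along, in twice the width -/
theorem formula_jet {w : ℕ} (j : Fin n) {p : Fin w → MvPolynomial (Fin n) ℚ}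
    {r : Fin n → ℕ} (h : Formula w n d p r) :
    Formula (w + w) n d (Fin.append p (fun a => pderiv j (p a))) r := by
  classical
  induction h with
  | const v =>
    have h1 := Formula.const (n := n) (d := d) (Fin.append v (fun _ : Fin w => (0 : ℚ)))
    convert h1 using 1
    funext a
    refine Fin.addCases (fun a => ?_) (fun a => ?_) a
    · rw [Fin.append_left, Fin.append_left]
    · rw [Fin.append_right, Fin.append_right]; simp
  | leaf i F hF =>
    have h1 := Formula.leaf (n := n) (d := d) i
      (Fin.append F (fun a : Fin w => if i = j then Polynomial.derivative (F a) else 0)) (by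
        intro a
        refine Fin.addCases (fun a => ?_) (fun a => ?_) a
        · rw [Fin.append_left]; exact hF a
        · rw [Fin.append_right]
          split_ifs
          · exact (Polynomial.natDegree_derivative_le _).trans ((Nat.sub_le _ _).trans (hF a))
          · simp)
    convert h1 using 1
    funext a
    refine Fin.addCases (fun a => ?_) (fun a => ?_) a
    · rw [Fin.append_left, Fin.append_left]
    · rw [Fin.append_right, Fin.append_right]
      have h2 : ∀ P : Polynomial ℚ, pderiv j (Polynomial.aeval (X i : MvPolynomial (Fin n) ℚ) P) =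
          Polynomial.aeval (X i) (if i = j then Polynomial.derivative P else 0) := by
        intro P
        induction P using Polynomial.induction_on' with
        | add P Q hP hQ =>
          rw [map_add, map_add, hP, hQ]
          split_ifs <;> simp
        | monomial m c =>
          rw [Polynomial.aeval_monomial, Derivation.leibniz, Derivation.leibniz_pow]
          by_cases hij : i = j
          · subst hij
            rw [if_pos rfl, Polynomial.derivative_monomial, Polynomial.aeval_monomial,
              pderiv_X_self]
            simp [MvPolynomial.algebraMap_eq]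
            ring
          · rw [if_neg hij, pderiv_X_of_ne hij]
            simp [MvPolynomial.algebraMap_eq]
      rw [h2]
  | add _ _ hp hq =>
    have h1 := Formula.add hp hq
    convert h1 using 1
    funext a
    rw [Pi.add_apply]
    refine Fin.addCases (fun a => ?_) (fun a => ?_) a
    · rw [Fin.append_left, Fin.append_left, Fin.append_left, Pi.add_apply]
    · rw [Fin.append_right, Fin.append_right, Fin.append_right, Pi.add_apply, map_add]
  | @gate B p q r s _ _ hp hq =>
    have h1 := Formula.gate (fun a b c : Fin (w + w) =>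
      Fin.addCases (motive := fun _ => ℚ)
        (fun a => Fin.addCases (motive := fun _ => ℚ)
          (fun b => Fin.addCases (motive := fun _ => ℚ) (fun c => B a b c) (fun _ => 0) c)
          (fun _ => 0) b)
        (fun a => Fin.addCases (motive := fun _ => ℚ)
          (fun b => Fin.addCases (motive := fun _ => ℚ) (fun _ => 0) (fun c => B a b c) c)
          (fun b => Fin.addCases (motive := fun _ => ℚ) (fun c => B a b c) (fun _ => 0) c) b) a)
      hp hq
    convert h1 using 1
    funext a
    refine Fin.addCases (fun a => ?_) (fun a => ?_) a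
    · rw [Fin.append_left, Fin.sum_univ_add]
      simp only [Fin.append_left, Fin.append_right, Fin.addCases_left, Fin.addCases_right,
        C_0, zero_mul, Finset.sum_const_zero, add_zero, Fin.sum_univ_add]
    · rw [Fin.append_right, Fin.sum_univ_add]
      simp only [Fin.append_left, Fin.append_right, Fin.addCases_left, Fin.addCases_right,
        C_0, zero_mul, Finset.sum_const_zero, add_zero, zero_add, Fin.sum_univ_add]
      rw [map_sum, ← Finset.sum_add_distrib]
      apply Finset.sum_congr rfl
      intro b _
      rw [map_sum, ← Finset.sum_add_distrib]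
      apply Finset.sum_congr rfl
      intro c _
      rw [Derivation.leibniz, Derivation.leibniz, pderiv_C]
      simp only [smul_eq_mul]
      ring

theorem RK.mono {κ κ' : ℕ} (h : κ ≤ κ') {f : MvPolynomial (Fin n) ℚ} (hf : RK w n d κ f) :
    RK w n d κ' f := by
  obtain ⟨p, r, hp, hr, a, ha⟩ := hf
  exact ⟨p, r, hp, fun i => (hr i).trans h, a, ha⟩

theorem RK.pad {W κ : ℕ} (h : w ≤ W) {f : MvPolynomial (Fin n) ℚ} (hf : RK w n d κ f) :
    RK W n d κ f := by
  obtain ⟨p, r, hp, hr, a, ha⟩ := hf
  refine ⟨_, r, formula_pad h hp, hr, Fin.castLE h a, ?_⟩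
  simp [ha]

theorem RK.pderiv {κ : ℕ} {f : MvPolynomial (Fin n) ℚ} (hf : RK w n d κ f) (j : Fin n) :
    RK (w + w) n d κ (pderiv j f) := by
  obtain ⟨p, r, hp, hr, a, ha⟩ := hf
  refine ⟨_, r, formula_jet j hp, hr, Fin.natAdd w a, ?_⟩
  rw [Fin.append_right, ha]

theorem RK.C (hw : 0 < w) (c : ℚ) : RK w n d 0 (MvPolynomial.C c) :=
  ⟨_, _, Formula.const (fun _ => c), fun _ => le_rfl, ⟨0, hw⟩, rfl⟩

theorem RK.add {κ κ' : ℕ} {f g : MvPolynomial (Fin n) ℚ} (hf : RK w n d κ f)
    (hg : RK w n d κ' g) : RK w n d (κ + κ') (f + g) := by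
  obtain ⟨p, r, hp, hr, a, ha⟩ := hf
  obtain ⟨q, s, hq, hs, b, hb⟩ := hg
  have hw : 0 < w := a.pos
  have h1 := formula_lin hq hw (fun _ c => if c = b then 1 else 0)
  refine ⟨_, _, Formula.add hp h1, fun i => Nat.add_le_add (hr i) (hs i), a, ?_⟩
  rw [Pi.add_apply, ha]
  congr 1
  rw [Finset.sum_eq_single b]
  · simp [hb]
  · intro c _ hc; simp [hc]
  · intro h; exact absurd (Finset.mem_univ _) h

theorem RK.mul {κ κ' : ℕ} {f g : MvPolynomial (Fin n) ℚ} (hf : RK w n d κ f)
    (hg : RK w n d κ' g) : RK w n d (κ + κ') (f * g) := by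
  classical
  obtain ⟨p, r, hp, hr, a, ha⟩ := hf
  obtain ⟨q, s, hq, hs, b, hb⟩ := hg
  refine ⟨_, _, Formula.gate (fun _ x y => if x = a then (if y = b then 1 else 0) else 0) hp hq,
    fun i => Nat.add_le_add (hr i) (hs i), a, ?_⟩
  rw [Finset.sum_eq_single a, Finset.sum_eq_single b]
  · simp [ha, hb]
  · intro c _ hc; simp [hc]
  · intro h; exact absurd (Finset.mem_univ _) h
  · intro c _ hc
    apply Finset.sum_eq_zero
    intro y _
    simp [hc]
  · intro h; exact absurd (Finset.mem_univ _) h

theorem RK.prod (hw : 0 < w) {κ : ℕ} {ι : Type*} (s : Finset ι)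
    (f : ι → MvPolynomial (Fin n) ℚ) (hf : ∀ i ∈ s, RK w n d κ (f i)) :
    RK w n d (s.card * κ) (∏ i ∈ s, f i) := by
  classical
  induction s using Finset.induction_on with
  | empty => simpa using RK.C (n := n) (d := d) hw 1
  | insert a s ha ih =>
    rw [Finset.prod_insert ha, Finset.card_insert_of_notMem ha]
    refine RK.mono (by ring_nf; rfl) ((hf a (Finset.mem_insert_self _ _)).mul
      (ih fun i hi => hf i (Finset.mem_insert_of_mem hi)))

theorem RK.sum (hw : 0 < w) {κ : ℕ} {ι : Type*} (s : Finset ι)
    (f : ι → MvPolynomial (Fin n) ℚ) (hf : ∀ i ∈ s, RK w n d κ (f i)) :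
    RK w n d (s.card * κ) (∑ i ∈ s, f i) := by
  classical
  induction s using Finset.induction_on with
  | empty => simpa using RK.C (n := n) (d := d) hw 0
  | insert a s ha ih =>
    rw [Finset.sum_insert ha, Finset.card_insert_of_notMem ha]
    refine RK.mono (by ring_nf; rfl) ((hf a (Finset.mem_insert_self _ _)).add
      (ih fun i hi => hf i (Finset.mem_insert_of_mem hi)))

/-- determinants -/
theorem RK.det (hw : 0 < w) {κ M : ℕ} (A : Matrix (Fin M) (Fin M) (MvPolynomial (Fin n) ℚ))
    (hA : ∀ i j, RK w n d κ (A i j)) : RK w n d (M.factorial * (M * κ)) A.det := by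
  classical
  rw [Matrix.det_apply]
  have h1 := RK.sum (n := n) (d := d) hw (κ := M * κ) (Finset.univ : Finset (Equiv.Perm (Fin M)))
    (fun σ => Equiv.Perm.sign σ • ∏ i, A (σ i) i) (by
      intro σ _
      have h2 := RK.prod (n := n) (d := d) hw (κ := κ) Finset.univ (fun i => A (σ i) i)
        (fun i _ => hA _ _)
      rw [Finset.card_univ, Fintype.card_fin] at h2
      have h3 := (RK.C (n := n) (d := d) hw ((Equiv.Perm.sign σ : ℤ) : ℚ)).mul h2
      rw [zero_add] at h3
      convert h3 using 1
      rw [Units.smul_def, zsmul_eq_mul]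
      simp)
  rwa [Finset.card_univ, Fintype.card_perm, Fintype.card_fin] at h1

end Pool.Agent.Helper8.T2
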