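import Pool.Agent.Helper5.Gen
import Pool.Agent.Helper6.Fanin.Point

/-!
From a seed of the generator to a small integer seed, independently of the multiplicities.
-/

namespace Pool.Agent.Helper8.T2

open MvPolynomial Pool.Agent.Helper5

/-- The explicit set of points `(∑_{l<c} z_l ∏_{j ≠ i} (y_l - j))_{i<n}` with integers
`0 ≤ z_l, y_l < B`. -/
def grid (n c B : ℕ) : Finset (Fin n → ℚ) :=
  ((Fintype.piFinset fun _ : Fin c => Finset.range B) ×ˢ
    (Fintype.piFinset fun _ : Fin c => Finset.range B)).image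
    fun p i => ∑ l : Fin c, (p.1 l : ℚ) * ∏ j ∈ Finset.univ.erase i, ((p.2 l : ℚ) - (j.val : ℚ))

theorem card_grid (n c B : ℕ) : (grid n c B).card ≤ B ^ (2 * c) := by
  refine Finset.card_image_le.trans ?_
  rw [Finset.card_product, Fintype.card_piFinset]
  simp [two_mul, pow_add]

theorem totalDegree_aeval_le {σ τ : Type*} (g : σ → MvPolynomial τ ℚ) (e : ℕ)
    (hg : ∀ i, (g i).totalDegree ≤ e) (f : MvPolynomial σ ℚ) :
    (MvPolynomial.aeval g f).totalDegree ≤ f.totalDegree * e := by
  classical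
  rw [MvPolynomial.aeval_def, MvPolynomial.eval₂_eq]
  apply totalDegree_finsetSum_le
  intro m hm
  refine (totalDegree_mul _ _).trans ?_
  have h1 : (algebraMap ℚ (MvPolynomial τ ℚ) (coeff m f)).totalDegree = 0 := by
    rw [MvPolynomial.algebraMap_eq, totalDegree_C]
  rw [h1, zero_add]
  refine (totalDegree_finsetProd _ _).trans ?_
  calc ∑ i ∈ m.support, (g i ^ m i).totalDegree ≤ ∑ i ∈ m.support, m i * e := by
        apply Finset.sum_le_sum
        intro i _
        exact (totalDegree_pow _ _).trans (Nat.mul_le_mul_left _ (hg i))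
    _ = (m.sum fun _ a => a) * e := by rw [← Finset.sum_mul]; rfl
    _ ≤ f.totalDegree * e := Nat.mul_le_mul_right _ (le_totalDegree hm)

theorem totalDegree_genPoly (n c : ℕ) (i : Fin n) : (genPoly n c i).totalDegree ≤ n := by
  classical
  unfold genPoly
  apply totalDegree_finsetSum_le
  intro l _
  refine (totalDegree_mul _ _).trans ?_
  rw [totalDegree_X]
  have h1 : (∏ j ∈ (Finset.univ : Finset (Fin n)).erase i, (X (Sum.inr l) - C (j.val : ℚ) :
      MvPolynomial (Fin c ⊕ Fin c) ℚ)).totalDegree ≤ n - 1 := by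
    refine (totalDegree_finsetProd _ _).trans ?_
    calc _ ≤ ∑ _j ∈ (Finset.univ : Finset (Fin n)).erase i, 1 := by
          apply Finset.sum_le_sum
          intro j _
          refine (totalDegree_sub _ _).trans ?_
          rw [totalDegree_X, totalDegree_C]
          simp
      _ = n - 1 := by simp
  have h2 := i.pos
  omega

theorem grid_hit {n c k m L : ℕ} (κ : Fin k → ℚ) (g : Fin k → Fin m → MvPolynomial (Fin n) ℚ)
    (e : Fin k → Fin m → ℕ) (hL : (∑ i, ∑ j, (g i j).totalDegree) * n ≤ L)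
    (s : Fin c ⊕ Fin c → ℚ)
    (hs : eval (gen n c s) (∑ i, C (κ i) * ∏ j, g i j ^ e i j) ≠ 0) :
    ∃ x ∈ grid n c (2 ^ (k + 1) * L + k + 1),
      eval x (∑ i, C (κ i) * ∏ j, g i j ^ e i j) ≠ 0 := by
  classical
  let γ : Fin n → MvPolynomial (Fin (c + c)) ℚ := fun v =>
    rename (finSumFinEquiv : Fin c ⊕ Fin c ≃ Fin (c + c)) (genPoly n c v)
  let G : Fin k → Fin m → MvPolynomial (Fin (c + c)) ℚ := fun i j => aeval γ (g i j)
  have hγ : ∀ (y : Fin (c + c) → ℚ) (v : Fin n),
      eval y (γ v) = gen n c (fun q => y (finSumFinEquiv q)) v := by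
    intro y v
    change eval y (rename _ (genPoly n c v)) = _
    rw [eval_rename, eval_genPoly]
    rfl
  have hev : ∀ (y : Fin (c + c) → ℚ) (p : MvPolynomial (Fin n) ℚ),
      eval y (aeval γ p) = eval (gen n c (fun q => y (finSumFinEquiv q))) p := by
    intro y p
    have h1 : ((eval y).comp (aeval γ : MvPolynomial (Fin n) ℚ →ₐ[ℚ] _).toRingHom) =
        eval (gen n c (fun q => y (finSumFinEquiv q))) := by
      apply MvPolynomial.ringHom_ext
      · intro r; simp
      · intro i; simp [hγ]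
    exact DFunLike.congr_fun h1 p
  have hG : ∀ y : Fin (c + c) → ℚ, eval y (∑ i, C (κ i) * ∏ j, G i j ^ e i j) =
      eval (gen n c (fun q => y (finSumFinEquiv q))) (∑ i, C (κ i) * ∏ j, g i j ^ e i j) := by
    intro y
    simp only [map_sum, map_mul, map_prod, map_pow, eval_C, G, hev]
  have hdeg : ∑ i, ∑ j, (G i j).totalDegree ≤ L := by
    refine le_trans ?_ hL
    rw [Finset.sum_mul]
    apply Finset.sum_le_sum
    intro i _
    rw [Finset.sum_mul]
    apply Finset.sum_le_sum
    intro j _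
    apply totalDegree_aeval_le
    intro v
    exact (totalDegree_rename_le _ _).trans (totalDegree_genPoly n c v)
  obtain ⟨x', _, h2, h3⟩ := Pool.Agent.Helper6.move_all κ G e hdeg Finset.univ
    (fun q => s (finSumFinEquiv.symm q)) (by
      rw [hG]
      simpa using hs)
  rw [hG] at h3
  refine ⟨_, ?_, h3⟩
  choose z hz1 hz2 using fun v => h2 v (Finset.mem_univ v)
  unfold grid
  rw [Finset.mem_image]
  refine ⟨(fun l => z (finSumFinEquiv (Sum.inl l)), fun l => z (finSumFinEquiv (Sum.inr l))),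
    ?_, ?_⟩
  · rw [Finset.mem_product, Fintype.mem_piFinset, Fintype.mem_piFinset]
    exact ⟨fun l => hz1 _, fun l => hz1 _⟩
  · funext i
    simp only [gen, hz2]

/-- splitting the generator -/
theorem exists_seed_of_split {n c c' : ℕ} (f : MvPolynomial (Fin n) ℚ)
    (h : aeval (fun v => rename Sum.inl (genPoly n c v) + rename Sum.inr (genPoly n c' v) :
      Fin n → MvPolynomial ((Fin c ⊕ Fin c) ⊕ (Fin c' ⊕ Fin c')) ℚ) f ≠ 0) :
    ∃ s, eval (gen n (c + c') s) f ≠ 0 := by
  classical
  obtain ⟨y, hy⟩ : ∃ y, eval y (aeval (fun v => rename Sum.inl (genPoly n c v) +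
      rename Sum.inr (genPoly n c' v) :
      Fin n → MvPolynomial ((Fin c ⊕ Fin c) ⊕ (Fin c' ⊕ Fin c')) ℚ) f) ≠ 0 := by
    by_contra hcon
    push Not at hcon
    exact h (MvPolynomial.funext fun y => by rw [hcon y, map_zero])
  refine ⟨Sum.elim (Fin.append (fun l => y (Sum.inl (Sum.inl l))) fun l => y (Sum.inr (Sum.inl l)))
    (Fin.append (fun l => y (Sum.inl (Sum.inr l))) fun l => y (Sum.inr (Sum.inr l))), ?_⟩
  have h1 : ((eval y).comp (aeval (fun v => rename Sum.inl (genPoly n c v) +
      rename Sum.inr (genPoly n c' v) :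
      Fin n → MvPolynomial ((Fin c ⊕ Fin c) ⊕ (Fin c' ⊕ Fin c')) ℚ) :
        MvPolynomial (Fin n) ℚ →ₐ[ℚ] _).toRingHom) = eval (gen n (c + c') (Sum.elim
      (Fin.append (fun l => y (Sum.inl (Sum.inl l))) fun l => y (Sum.inr (Sum.inl l)))
      (Fin.append (fun l => y (Sum.inl (Sum.inr l))) fun l => y (Sum.inr (Sum.inr l))))) := by
    apply MvPolynomial.ringHom_ext
    · intro r; simp
    · intro v
      simp only [AlgHom.toRingHom_eq_coe, RingHom.comp_apply, RingHom.coe_coe, aeval_X, map_add,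
        eval_rename, eval_genPoly, eval_X, gen, Function.comp, Fin.sum_univ_add, Sum.elim_inl,
        Sum.elim_inr, Fin.append_left, Fin.append_right]
  have h2 := DFunLike.congr_fun h1 f
  rw [← h2]
  exact hy

end Pool.Agent.Helper8.T2
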