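import Pool.Agent.Helper8.T2.Main
import Pool.Agent.Helper5.V.Interface

/-!
The interface, and the unconditional hitting set for sums of few products of read-k formulas.
-/

namespace Pool.Agent.Helper8.T2

open MvPolynomial ReadKTree
open Pool.Agent.Helper5 (gen genPoly eval_genPoly G_mono)

theorem intSt : IntSt := by
  classical
  intro n k t c₀ 𝒢 𝒜 H2 H1 m T hT htr f hf hf0
  have h := VF.interface k ((k + 1) * t) (genPoly n c₀) 𝒢 𝒜 ?_ H1 T hT htr f hf hf0
  · exact h
  · intro g hg r hr J
    choose a ha ha2 using fun l => H2 (g l) (hg l) r hr J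
    refine ⟨fun i => a (finProdFinEquiv.symm i).1 (finProdFinEquiv.symm i).2,
      fun i => ha _ _, ?_⟩
    intro l mm
    refine Algebra.adjoin_mono ?_ (ha2 l mm)
    rintro _ ⟨i, rfl⟩
    exact ⟨finProdFinEquiv (l, i), by simp⟩

end Pool.Agent.Helper8.T2
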