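import Pool.Agent.Helper8.T2.Final

namespace Pool.Agent.Helper8.T2.Kept

open Pool.Agent.Helper8 ReadKTree T2

theorem result : ∀ w κ k : ℕ, ∃ c : ℕ, ∀ n D : ℕ,
    (points n (c * (Nat.clog 2 n + 1)) D).card ≤
        ((D + 1) * (n * D + 1)) ^ (c * (Nat.clog 2 n + 1)) ∧
      ∀ (d N m : ℕ) (g : Fin N → Fin m → MvPolynomial (Fin n) ℚ) (e : Fin N → Fin m → ℕ)
        (a : Fin N → ℚ),
        (∀ i j, RK w n d κ (g i j)) →
        (∀ b : Finset (Fin N), AlgebraicIndepOn ℚ (fun i => ∏ j, g i j ^ e i j) (b : Set (Fin N)) →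
          b.card ≤ k) →
        ((∑ i, MvPolynomial.C (a i) * ∏ j, g i j ^ e i j).totalDegree ≤ D ∨
          2 ^ (N + 1) * (N * m * n ^ 2 * κ * d) + N ≤ D) →
        ∑ i, MvPolynomial.C (a i) * ∏ j, g i j ^ e i j ≠ 0 →
          ∃ x ∈ points n (c * (Nat.clog 2 n + 1)) D,
            MvPolynomial.eval x (∑ i, MvPolynomial.C (a i) * ∏ j, g i j ^ e i j) ≠ 0 :=
  fun w κ k => ⟨Cst w κ k, fun n D => ⟨Tree.card_points _ _ _,
    fun d _ _ g e a hg htr hD hf => T2.hit w κ k n d g hg e a htr D hD hf⟩⟩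

end Pool.Agent.Helper8.T2.Kept
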