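import Pool.Agent.Helper8.T2.H2
import Pool.Agent.Helper8.T2.Grid
import Pool.Agent.Helper8.Tree.Final

/-!
Sums of few products of read-k vector formulas: the hitting set, from the interface.
-/

namespace Pool.Agent.Helper8.T2

open MvPolynomial ReadKTree
open Pool.Agent.Helper5 (gen genPoly eval_genPoly G_mono)

/-- the statement of the interface for the generator `genPoly` -/
def IntSt : Prop :=
  ∀ (n k t c₀ : ℕ) (𝒢 𝒜 : Set (MvPolynomial (Fin n) ℚ)),
    (∀ g ∈ 𝒢, ∀ r ≤ k, ∀ J : Fin r → Fin n, ∃ a : Fin t → MvPolynomial (Fin n) ℚ,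
      (∀ i, a i ∈ 𝒜) ∧ ∀ m, coeff m (aeval (fun v => C (X v) + ∑ j, if J j = v then X j else 0) g :
        MvPolynomial (Fin r) (MvPolynomial (Fin n) ℚ)) ∈ Algebra.adjoin ℚ (Set.range a)) →
    (∀ M ≤ (k + 1) * t, ∀ a : Fin M → MvPolynomial (Fin n) ℚ, (∀ i, a i ∈ 𝒜) →
      ∀ J : Fin M → Fin n, (Matrix.of fun i j => pderiv (J j) (a i)).det ≠ 0 →
        aeval (genPoly n c₀) (Matrix.of fun i j => pderiv (J j) (a i)).det ≠ 0) →
    ∀ {m : ℕ} (T : Fin m → MvPolynomial (Fin n) ℚ), (∀ i, T i ∈ Submonoid.closure 𝒢) →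
    (∀ b : Finset (Fin m), AlgebraicIndepOn ℚ T (b : Set (Fin m)) → b.card ≤ k) →
    ∀ f ∈ Algebra.adjoin ℚ (Set.range T), f ≠ 0 →
      aeval (fun v => rename Sum.inl (genPoly n c₀ v) +
        rename Sum.inr (genPoly n ((k + 1) * t + k) v) : Fin n →
          MvPolynomial ((Fin c₀ ⊕ Fin c₀) ⊕ (Fin ((k + 1) * t + k) ⊕ Fin ((k + 1) * t + k))) ℚ) f
        ≠ 0

variable {w n d : ℕ}

theorem eval_aeval_gen (c : ℕ) (s : Fin c ⊕ Fin c → ℚ) (f : MvPolynomial (Fin n) ℚ) :
    eval s (aeval (genPoly n c) f) = eval (gen n c s) f := by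
  have h1 : ((eval s).comp (aeval (genPoly n c) : MvPolynomial (Fin n) ℚ →ₐ[ℚ] _).toRingHom) =
      eval (gen n c s) := by
    apply MvPolynomial.ringHom_ext
    · intro r; simp
    · intro i; simp [eval_genPoly]
  exact DFunLike.congr_fun h1 f

/-- the generator hits the class -/
theorem gen_hits {κ : ℕ} {f : MvPolynomial (Fin n) ℚ} (hf : RK w n d κ f) (hf0 : f ≠ 0) :
    aeval (genPoly n (Tree.expo (w + 1) κ * (Nat.clog 2 (κ * n) + 1))) f ≠ 0 := by
  obtain ⟨p, r, hp, hr, a, rfl⟩ := hf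
  obtain ⟨x, hx, hx0⟩ := Tree.hit_formula w κ n d hp hr a hf0
  unfold points at hx
  rw [Finset.mem_image] at hx
  obtain ⟨s, _, hs⟩ := hx
  intro h0
  apply hx0
  have h1 : gen n (Tree.expo (w + 1) κ * (Nat.clog 2 (κ * n) + 1))
      (Sum.elim (fun l => (s.1 l : ℚ)) (fun l => (s.2 l : ℚ))) = x := by
    rw [← hs]; rfl
  rw [← h1, ← eval_aeval_gen, h0, map_zero]

theorem totalDegree_aeval_X (i : Fin n) (F : Polynomial ℚ) :
    (Polynomial.aeval (MvPolynomial.X i : MvPolynomial (Fin n) ℚ) F).totalDegree ≤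
      F.natDegree := Tree.totalDegree_aeval_X i F

theorem totalDegree_formula {p : Fin w → MvPolynomial (Fin n) ℚ} {r : Fin n → ℕ}
    (h : Formula w n d p r) : ∀ a, (p a).totalDegree ≤ (∑ i, r i) * d := by
  classical
  induction h with
  | const v => intro a; simp
  | leaf i F hF =>
    intro a
    have : ∑ j, (Pi.single i 1 : Fin n → ℕ) j = 1 := by simp
    rw [this, one_mul]
    exact (totalDegree_aeval_X i (F a)).trans (hF a)
  | @add p q r s _ _ hp hq =>
    intro a
    have : ∑ i, (r + s) i = ∑ i, r i + ∑ i, s i := by rw [← Finset.sum_add_distrib]; rfl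
    rw [this, Nat.add_mul]
    refine (totalDegree_add _ _).trans (max_le ?_ ?_)
    · exact (hp a).trans (Nat.le_add_right _ _)
    · exact (hq a).trans (Nat.le_add_left _ _)
  | @gate B p q r s _ _ hp hq =>
    intro a
    have : ∑ i, (r + s) i = ∑ i, r i + ∑ i, s i := by rw [← Finset.sum_add_distrib]; rfl
    rw [this, Nat.add_mul]
    apply totalDegree_finsetSum_le
    intro b _
    apply totalDegree_finsetSum_le
    intro c _
    refine (totalDegree_mul _ _).trans (Nat.add_le_add ?_ (hq c))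
    refine (totalDegree_mul _ _).trans ?_
    rw [totalDegree_C, zero_add]
    exact hp b

theorem totalDegree_RK {κ : ℕ} {f : MvPolynomial (Fin n) ℚ} (hf : RK w n d κ f) :
    f.totalDegree ≤ n * κ * d := by
  obtain ⟨p, r, hp, hr, a, rfl⟩ := hf
  refine (totalDegree_formula hp a).trans (Nat.mul_le_mul_right _ ?_)
  calc ∑ i, r i ≤ ∑ _i : Fin n, κ := Finset.sum_le_sum fun i _ => hr i
    _ = n * κ := by simp

/-- the read number of the Jacobian minors -/
def kbig (w κ k : ℕ) : ℕ :=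
  ((k + 1) * tpar w κ k).factorial * (((k + 1) * tpar w κ k) * (κ + 1))

/-- the constant in the number of seeds -/
def Cst (w κ k : ℕ) : ℕ :=
  Tree.expo (w + w + 1) (kbig w κ k) * (Nat.clog 2 (kbig w κ k) + 1) +
    ((k + 1) * tpar w κ k + k)

theorem clog_mul_le (a b : ℕ) : Nat.clog 2 (a * b) ≤ Nat.clog 2 a + Nat.clog 2 b := by
  rw [Nat.clog_le_iff_le_pow (by norm_num), pow_add]
  exact Nat.mul_le_mul (Nat.le_pow_clog (by norm_num) a) (Nat.le_pow_clog (by norm_num) b)

theorem seeds_le (w κ k n : ℕ) :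
    Tree.expo (w + w + 1) (kbig w κ k) * (Nat.clog 2 (kbig w κ k * n) + 1) +
      ((k + 1) * tpar w κ k + k) ≤ Cst w κ k * (Nat.clog 2 n + 1) := by
  unfold Cst
  have h1 := clog_mul_le (kbig w κ k) n
  set E := Tree.expo (w + w + 1) (kbig w κ k)
  set a := Nat.clog 2 (kbig w κ k)
  set b := Nat.clog 2 n
  set M := (k + 1) * tpar w κ k + k
  have h2 : E * (Nat.clog 2 (kbig w κ k * n) + 1) ≤ E * ((a + 1) * (b + 1)) := by
    apply Nat.mul_le_mul_left
    nlinarith
  nlinarith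

/-- **Main theorem**, from the interface. -/
theorem hit_sum_prod (hInt : IntSt) (w κ k n d m : ℕ) (g : Fin k → Fin m → MvPolynomial (Fin n) ℚ)
    (hg : ∀ i j, RK w n d κ (g i j)) (e : Fin k → Fin m → ℕ) (c : Fin k → ℚ)
    (hf : ∑ i, C (c i) * ∏ j, g i j ^ e i j ≠ 0) :
    ∃ x ∈ grid n (Cst w κ k * (Nat.clog 2 n + 1))
      (2 ^ (k + 1) * (k * m * (n * κ * d) * n) + k + 1),
      eval x (∑ i, C (c i) * ∏ j, g i j ^ e i j) ≠ 0 := by
  classical
  set f := ∑ i, C (c i) * ∏ j, g i j ^ e i j with hfdef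
  set T : Fin k → MvPolynomial (Fin n) ℚ := fun i => ∏ j, g i j ^ e i j with hT
  set c₀ := Tree.expo (w + w + 1) (kbig w κ k) * (Nat.clog 2 (kbig w κ k * n) + 1) with hc₀
  set 𝒢 : Set (MvPolynomial (Fin n) ℚ) := {q | RK w n d κ q} with h𝒢
  have hg' : ∀ i j, g i j ∈ 𝒢 := hg
  have hTmem : ∀ i, T i ∈ Submonoid.closure 𝒢 := fun i =>
    Submonoid.prod_mem _ fun j _ => Submonoid.pow_mem _ (Submonoid.subset_closure (hg' i j)) _
  have hfmem : f ∈ Algebra.adjoin ℚ (Set.range T) := by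
    rw [hfdef]
    refine Subalgebra.sum_mem _ fun i _ => ?_
    have h1 : C (c i) * ∏ j, g i j ^ e i j = c i • T i := by
      rw [MvPolynomial.smul_eq_C_mul]
    rw [h1]
    exact Subalgebra.smul_mem _ (Algebra.subset_adjoin (Set.mem_range_self i)) _
  have h1 := hInt n k (tpar w κ k) c₀ 𝒢
    {a : MvPolynomial (Fin n) ℚ | RK w n (d + 1) (κ + 1) a} (fun g hg r hr J => H2 w n d κ k g hg r hr J)
    (by
      intro M hM a ha J hdet
      rcases Nat.eq_zero_or_pos w with hw | hw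
      · subst hw
        rcases Nat.eq_zero_or_pos M with hM0 | hM0
        · subst hM0
          simp
        · obtain ⟨p, r, _, _, x, _⟩ := ha ⟨0, hM0⟩
          exact x.elim0
      · have h2 := (minor_mem hw a ha J).mono (κ' := kbig w κ k) (by
          unfold kbig
          exact Nat.mul_le_mul (Nat.factorial_le hM) (Nat.mul_le_mul_right _ hM))
        exact gen_hits h2 hdet)
    T hTmem (fun b _ => by
      calc b.card ≤ (Finset.univ : Finset (Fin k)).card := Finset.card_le_card (Finset.subset_univ _)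
        _ = k := by simp) f hfmem hf
  obtain ⟨s, hs⟩ := exists_seed_of_split f h1
  have hmono := G_mono (n := n) (seeds_le w κ k n)
  obtain ⟨s', hs'⟩ := hmono ⟨s, rfl⟩
  rw [← hs'] at hs
  apply grid_hit c g e _ s' hs
  apply Nat.mul_le_mul_right
  calc ∑ i, ∑ j, (g i j).totalDegree ≤ ∑ _i : Fin k, ∑ _j : Fin m, n * κ * d :=
        Finset.sum_le_sum fun i _ => Finset.sum_le_sum fun j _ => totalDegree_RK (hg i j)
    _ = k * m * (n * κ * d) := by simp [mul_assoc]

end Pool.Agent.Helper8.T2
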