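import Pool.Agent.Helper8.T2.Cls

/-!
Local representation of read-k vector formulas: after shifting a few variables, all the
coefficients lie in an algebra generated by few components of read-k vector formulas.
-/

namespace Pool.Agent.Helper8.T2

open MvPolynomial ReadKTree

variable {w n d : ℕ}

/-- degree monotonicity -/
theorem formula_deg {d' : ℕ} (h : d ≤ d') {p : Fin w → MvPolynomial (Fin n) ℚ} {r : Fin n → ℕ}
    (hp : Formula w n d p r) : Formula w n d' p r := by
  induction hp with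
  | const v => exact Formula.const v
  | leaf i F hF => exact Formula.leaf i F fun a => (hF a).trans h
  | add _ _ hp hq => exact Formula.add hp hq
  | gate B _ _ hp hq => exact Formula.gate B hp hq

section Coef

variable {ρ : ℕ} {R : Type*} [CommRing R] [Algebra ℚ R]

/-- polynomials with coefficients in a subalgebra -/
def coefAlg (S : Subalgebra ℚ R) : Subalgebra ℚ (MvPolynomial (Fin ρ) R) where
  carrier := {P | ∀ m, coeff m P ∈ S}
  mul_mem' := by
    intro P Q hP hQ m
    rw [coeff_mul]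
    exact S.sum_mem fun x _ => S.mul_mem (hP _) (hQ _)
  add_mem' := by
    intro P Q hP hQ m
    rw [coeff_add]
    exact S.add_mem (hP _) (hQ _)
  algebraMap_mem' := by
    intro c m
    rw [MvPolynomial.algebraMap_apply, coeff_C]
    split_ifs
    · exact S.algebraMap_mem c
    · exact S.zero_mem

theorem mem_coefAlg {S : Subalgebra ℚ R} {P : MvPolynomial (Fin ρ) R} :
    P ∈ coefAlg S ↔ ∀ m, coeff m P ∈ S := Iff.rfl

theorem C_mem_coefAlg {S : Subalgebra ℚ R} {x : R} (h : x ∈ S) :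
    (C x : MvPolynomial (Fin ρ) R) ∈ coefAlg S := by
  intro m
  rw [coeff_C]
  split_ifs
  · exact h
  · exact S.zero_mem

theorem coefAlg_mono {S S' : Subalgebra ℚ R} (h : S ≤ S') :
    (coefAlg S : Subalgebra ℚ (MvPolynomial (Fin ρ) R)) ≤ coefAlg S' :=
  fun _ hP m => h (hP m)

end Coef

variable {ρ : ℕ}
  (Ψ : MvPolynomial (Fin n) ℚ →ₐ[ℚ] MvPolynomial (Fin ρ) (MvPolynomial (Fin n) ℚ))
  (I : Finset (Fin n))

/-- formulas without marked variables are not changed -/
theorem unmarked (hΨ : ∀ i, i ∉ I → Ψ (X i) = C (X i)) {p : Fin w → MvPolynomial (Fin n) ℚ}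
    {r : Fin n → ℕ} (h : Formula w n d p r) : (∀ i ∈ I, r i = 0) → ∀ a, Ψ (p a) = C (p a) := by
  induction h with
  | const v =>
    intro _ a
    have := Ψ.commutes (v a)
    rw [MvPolynomial.algebraMap_apply] at this
    exact this
  | leaf i F hF =>
    intro hr a
    have hi : i ∉ I := by
      intro hi
      have := hr i hi
      rw [Pi.single_eq_same] at this
      omega
    have h1 : ∀ P : Polynomial ℚ, Ψ (Polynomial.aeval (X i) P) = C (Polynomial.aeval (X i) P) := by
      intro P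
      rw [← Polynomial.aeval_algHom_apply, hΨ i hi]
      have h2 := Polynomial.aeval_algHom_apply
        (IsScalarTower.toAlgHom ℚ (MvPolynomial (Fin n) ℚ)
          (MvPolynomial (Fin ρ) (MvPolynomial (Fin n) ℚ))) (X i) P
      exact h2
    exact h1 (F a)
  | add _ _ hp hq =>
    intro hr a
    rw [Pi.add_apply, map_add, map_add, hp (fun i hi => by
      have := hr i hi; rw [Pi.add_apply] at this; omega) a, hq (fun i hi => by
      have := hr i hi; rw [Pi.add_apply] at this; omega) a]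
  | gate B _ _ hp hq =>
    intro hr a
    have hp' := hp (fun i hi => by
      have := hr i hi; rw [Pi.add_apply] at this; omega)
    have hq' := hq (fun i hi => by
      have := hr i hi; rw [Pi.add_apply] at this; omega)
    simp only [map_sum, map_mul, hp', hq']
    apply Finset.sum_congr rfl
    intro b _
    apply Finset.sum_congr rfl
    intro c _
    congr 2
    have := Ψ.commutes (B a b c)
    rw [MvPolynomial.algebraMap_apply] at this
    exact this

/-- an affine context -/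
structure Cx (d : ℕ) (A : Fin w → Fin w → MvPolynomial (Fin n) ℚ)
    (v : Fin w → MvPolynomial (Fin n) ℚ) (r : Fin n → ℕ) : Prop where
  form : ∀ y : Fin w → ℚ, Formula w n d (fun a => ∑ b, A a b * C (y b) + v a) r

theorem Cx.vec {A : Fin w → Fin w → MvPolynomial (Fin n) ℚ} {v : Fin w → MvPolynomial (Fin n) ℚ}
    {r : Fin n → ℕ} (h : Cx d A v r) : Formula w n d v r := by
  have := h.form 0
  simpa using this

theorem Cx.col {A : Fin w → Fin w → MvPolynomial (Fin n) ℚ} {v : Fin w → MvPolynomial (Fin n) ℚ}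
    {r : Fin n → ℕ} (h : Cx d A v r) (b : Fin w) : Formula w n d (fun a => A a b + v a) r := by
  classical
  have := h.form (Pi.single b 1)
  convert this using 2 with a
  rw [Finset.sum_eq_single b]
  · simp
  · intro c _ hc; simp [Pi.single_eq_of_ne hc]
  · intro h; exact absurd (Finset.mem_univ _) h

open Classical in
/-- the polynomials attached to a context -/
noncomputable def cxSet (A : Fin w → Fin w → MvPolynomial (Fin n) ℚ)
    (v : Fin w → MvPolynomial (Fin n) ℚ) : Finset (MvPolynomial (Fin n) ℚ) :=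
  Finset.univ.image v ∪ Finset.univ.image fun x : Fin w × Fin w => A x.1 x.2 + v x.1

theorem card_cxSet (A : Fin w → Fin w → MvPolynomial (Fin n) ℚ)
    (v : Fin w → MvPolynomial (Fin n) ℚ) : (cxSet A v).card ≤ w * (w + 1) := by
  classical
  unfold cxSet
  have h1 := Finset.card_image_le (s := (Finset.univ : Finset (Fin w))) (f := v)
  have h2 := Finset.card_image_le (s := (Finset.univ : Finset (Fin w × Fin w)))
    (f := fun x => A x.1 x.2 + v x.1)
  rw [Finset.card_univ, Fintype.card_fin] at h1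
  rw [Finset.card_univ, Fintype.card_prod, Fintype.card_fin] at h2
  refine (Finset.card_union_le _ _).trans ?_
  rw [Nat.mul_add, mul_one]
  omega

/-- the elements of a context belong to the adjoined algebra -/
theorem cx_mem {A : Fin w → Fin w → MvPolynomial (Fin n) ℚ}
    {v : Fin w → MvPolynomial (Fin n) ℚ} {S : Set (MvPolynomial (Fin n) ℚ)}
    (hS : (cxSet A v : Set (MvPolynomial (Fin n) ℚ)) ⊆ S) :
    (∀ a, v a ∈ Algebra.adjoin ℚ S) ∧ ∀ a b, A a b ∈ Algebra.adjoin ℚ S := by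
  classical
  have h1 : ∀ a, v a ∈ Algebra.adjoin ℚ S := fun a => Algebra.subset_adjoin (hS (by
    simp only [cxSet, Finset.coe_union, Set.mem_union]
    left
    exact Finset.mem_coe.mpr (Finset.mem_image_of_mem _ (Finset.mem_univ _))))
  refine ⟨h1, fun a b => ?_⟩
  have h2 : A a b + v a ∈ Algebra.adjoin ℚ S := Algebra.subset_adjoin (hS (by
    simp only [cxSet, Finset.coe_union, Set.mem_union]
    right
    exact Finset.mem_coe.mpr (Finset.mem_image.mpr ⟨(a, b), Finset.mem_univ _, rfl⟩)))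
  have h3 := Subalgebra.sub_mem _ h2 (h1 a)
  rwa [add_sub_cancel_right] at h3

/-- membership of the elements of a context in the class -/
theorem cx_class {A : Fin w → Fin w → MvPolynomial (Fin n) ℚ}
    {v : Fin w → MvPolynomial (Fin n) ℚ} {r : Fin n → ℕ} (h : Cx d A v r) :
    ∀ s ∈ cxSet A v, ∃ p', Formula w n d p' r ∧ ∃ a : Fin w, p' a = s := by
  classical
  intro s hs
  unfold cxSet at hs
  rw [Finset.mem_union, Finset.mem_image, Finset.mem_image] at hs
  rcases hs with ⟨a, _, rfl⟩ | ⟨x, _, rfl⟩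
  · exact ⟨v, h.vec, a, rfl⟩
  · exact ⟨_, h.col x.2, x.1, rfl⟩

/-- the value of a marked context under the shift -/
theorem cx_shift (hΨ : ∀ i, i ∉ I → Ψ (X i) = C (X i))
    {A : Fin w → Fin w → MvPolynomial (Fin n) ℚ} {v z p : Fin w → MvPolynomial (Fin n) ℚ}
    {r : Fin n → ℕ} (h : Cx d A v r) (hr : ∀ i ∈ I, r i = 0)
    {S : Set (MvPolynomial (Fin n) ℚ)} (hS : (cxSet A v : Set (MvPolynomial (Fin n) ℚ)) ⊆ S)
    (hz : ∀ a, Ψ (z a) ∈ coefAlg (Algebra.adjoin ℚ S))
    (hp : ∀ a, p a = ∑ b, A a b * z b + v a) (a : Fin w) :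
    Ψ (p a) ∈ coefAlg (Algebra.adjoin ℚ S) := by
  obtain ⟨h1, h2⟩ := cx_mem hS
  have hv := unmarked Ψ I hΨ h.vec hr
  have hA : ∀ a b, Ψ (A a b) = C (A a b) := by
    intro a b
    have h3 := unmarked Ψ I hΨ (h.col b) hr a
    rw [map_add, map_add, hv a] at h3
    exact add_right_cancel h3
  rw [hp, map_add, map_sum, hv a]
  refine Subalgebra.add_mem _ (Subalgebra.sum_mem _ fun b _ => ?_) (C_mem_coefAlg (h1 a))
  rw [map_mul, hA]
  exact Subalgebra.mul_mem _ (C_mem_coefAlg (h2 a b)) (hz b)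

/-- the local representation -/
structure LRep (d : ℕ) (p : Fin w → MvPolynomial (Fin n) ℚ) (r : Fin n → ℕ)
    (A : Fin w → Fin w → MvPolynomial (Fin n) ℚ) (v : Fin w → MvPolynomial (Fin n) ℚ)
    (r₁ : Fin n → ℕ) (z : Fin w → MvPolynomial (Fin n) ℚ)
    (S : Finset (MvPolynomial (Fin n) ℚ)) : Prop where
  cx : Cx d A v r₁
  le : ∀ i, r₁ i ≤ r i
  zero : ∀ i ∈ I, r₁ i = 0
  eq : ∀ a, p a = ∑ b, A a b * z b + v a
  card : (∑ i ∈ I, r i = 0 ∧ S = ∅) ∨
    S.card + 2 * (w * (w + 1)) ≤ (∑ i ∈ I, r i) * (1 + 2 * (w * (w + 1)))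
  cls : ∀ s ∈ S, (∃ i, s = X i) ∨ ∃ p' r', Formula w n d p' r' ∧ (∀ i, r' i ≤ r i) ∧
    ∃ a : Fin w, p' a = s
  mem : ∀ a, Ψ (z a) ∈ coefAlg (Algebra.adjoin ℚ (S : Set (MvPolynomial (Fin n) ℚ)))

theorem cx_one : Cx (w := w) (n := n) d (fun a b => if a = b then 1 else 0) 0 0 := by
  classical
  refine ⟨fun y => ?_⟩
  have := Formula.const (n := n) (d := d) y
  convert this using 2 with a
  simp

theorem cx_zero {p : Fin w → MvPolynomial (Fin n) ℚ} {r : Fin n → ℕ} (h : Formula w n d p r) :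
    Cx (w := w) (n := n) d (fun _ _ => 0) p r := by
  refine ⟨fun y => ?_⟩
  convert h using 2 with a
  simp

theorem cx_add {A : Fin w → Fin w → MvPolynomial (Fin n) ℚ} {v q : Fin w → MvPolynomial (Fin n) ℚ}
    {r s : Fin n → ℕ} (h : Cx d A v r) (hq : Formula w n d q s) :
    Cx d A (v + q) (r + s) := by
  refine ⟨fun y => ?_⟩
  have := Formula.add (h.form y) hq
  convert this using 1
  funext a
  rw [Pi.add_apply, Pi.add_apply, add_assoc]

theorem cx_gate (B : Fin w → Fin w → Fin w → ℚ)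
    {A : Fin w → Fin w → MvPolynomial (Fin n) ℚ} {v q : Fin w → MvPolynomial (Fin n) ℚ}
    {r s : Fin n → ℕ} (h : Cx d A v r) (hq : Formula w n d q s) :
    Cx d (fun a b => ∑ b', ∑ c, C (B a b' c) * A b' b * q c)
      (fun a => ∑ b', ∑ c, C (B a b' c) * v b' * q c) (r + s) := by
  refine ⟨fun y => ?_⟩
  have := Formula.gate B (h.form y) hq
  convert this using 2 with a
  have h1 : ∀ b' c, C (B a b' c) * (∑ b, A b' b * C (y b) + v b') * q c =
      ∑ b, C (B a b' c) * A b' b * q c * C (y b) + C (B a b' c) * v b' * q c := by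
    intro b' c
    rw [mul_add, add_mul, Finset.mul_sum, Finset.sum_mul]
    congr 1
    apply Finset.sum_congr rfl
    intro b _
    ring
  simp only [h1, Finset.sum_add_distrib]
  congr 1
  simp only [Finset.sum_mul]
  rw [Finset.sum_comm]
  apply Finset.sum_congr rfl
  intro b' _
  exact Finset.sum_comm

variable {Ψ I}

theorem LRep.shift (hΨ : ∀ i, i ∉ I → Ψ (X i) = C (X i))
    {p : Fin w → MvPolynomial (Fin n) ℚ} {r : Fin n → ℕ}
    {A : Fin w → Fin w → MvPolynomial (Fin n) ℚ} {v : Fin w → MvPolynomial (Fin n) ℚ}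
    {r₁ : Fin n → ℕ} {z : Fin w → MvPolynomial (Fin n) ℚ} {S : Finset (MvPolynomial (Fin n) ℚ)}
    (h : LRep Ψ I d p r A v r₁ z S) {S' : Set (MvPolynomial (Fin n) ℚ)}
    (h1 : (S : Set (MvPolynomial (Fin n) ℚ)) ⊆ S')
    (h2 : (cxSet A v : Set (MvPolynomial (Fin n) ℚ)) ⊆ S') (a : Fin w) :
    Ψ (p a) ∈ coefAlg (Algebra.adjoin ℚ S') :=
  cx_shift Ψ I hΨ h.cx h.zero h2
    (fun a => coefAlg_mono (Algebra.adjoin_mono h1) (h.mem a)) h.eq a

theorem lrep_both (hΨ : ∀ i, i ∉ I → Ψ (X i) = C (X i))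
    {p q : Fin w → MvPolynomial (Fin n) ℚ} {r s : Fin n → ℕ}
    {A₁ A₂ : Fin w → Fin w → MvPolynomial (Fin n) ℚ} {v₁ v₂ : Fin w → MvPolynomial (Fin n) ℚ}
    {r₁ r₂ : Fin n → ℕ} {z₁ z₂ : Fin w → MvPolynomial (Fin n) ℚ}
    {S₁ S₂ : Finset (MvPolynomial (Fin n) ℚ)}
    (h₁ : LRep Ψ I d p r A₁ v₁ r₁ z₁ S₁) (h₂ : LRep Ψ I d q s A₂ v₂ r₂ z₂ S₂)
    (hr : ∑ i ∈ I, r i ≠ 0) (hs : ∑ i ∈ I, s i ≠ 0) (z : Fin w → MvPolynomial (Fin n) ℚ)
    (hz : ∀ S' : Subalgebra ℚ (MvPolynomial (Fin n) ℚ), (∀ a, Ψ (p a) ∈ coefAlg S') →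
      (∀ a, Ψ (q a) ∈ coefAlg S') → ∀ a, Ψ (z a) ∈ coefAlg S') :
    ∃ A v r₁ z' S, LRep Ψ I d z (r + s) A v r₁ z' S := by
  classical
  refine ⟨_, _, _, z, S₁ ∪ S₂ ∪ (cxSet A₁ v₁ ∪ cxSet A₂ v₂), ⟨cx_one, fun _ => Nat.zero_le _,
    fun _ _ => rfl, fun a => by simp, Or.inr ?_, ?_, ?_⟩⟩
  · have e1 := (h₁.card.resolve_left fun h => hr h.1)
    have e2 := (h₂.card.resolve_left fun h => hs h.1)
    have e3 := card_cxSet A₁ v₁
    have e4 := card_cxSet A₂ v₂
    have e5 : (S₁ ∪ S₂ ∪ (cxSet A₁ v₁ ∪ cxSet A₂ v₂)).card ≤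
        S₁.card + S₂.card + ((cxSet A₁ v₁).card + (cxSet A₂ v₂).card) :=
      (Finset.card_union_le _ _).trans (Nat.add_le_add (Finset.card_union_le _ _)
        (Finset.card_union_le _ _))
    have e6 : ∑ i ∈ I, (r + s) i = ∑ i ∈ I, r i + ∑ i ∈ I, s i := by
      rw [← Finset.sum_add_distrib]; rfl
    rw [e6, Nat.add_mul]
    omega
  · intro x hx
    rw [Finset.mem_union, Finset.mem_union, Finset.mem_union] at hx
    rcases hx with (hx | hx) | hx | hx
    · rcases h₁.cls x hx with h | ⟨p', r', a1, a2, a3⟩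
      · exact Or.inl h
      · exact Or.inr ⟨p', r', a1, fun i => (a2 i).trans (Nat.le_add_right _ _), a3⟩
    · rcases h₂.cls x hx with h | ⟨p', r', a1, a2, a3⟩
      · exact Or.inl h
      · exact Or.inr ⟨p', r', a1, fun i => (a2 i).trans (Nat.le_add_left _ _), a3⟩
    · obtain ⟨p', a1, a3⟩ := cx_class h₁.cx x hx
      exact Or.inr ⟨p', r₁, a1, fun i => (h₁.le i).trans (Nat.le_add_right _ _), a3⟩
    · obtain ⟨p', a1, a3⟩ := cx_class h₂.cx x hx
      exact Or.inr ⟨p', r₂, a1, fun i => (h₂.le i).trans (Nat.le_add_left _ _), a3⟩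
  · apply hz
    · apply h₁.shift hΨ
      · intro x hx
        simp only [Finset.coe_union, Set.mem_union]
        exact Or.inl (Or.inl hx)
      · intro x hx
        simp only [Finset.coe_union, Set.mem_union]
        exact Or.inr (Or.inl hx)
    · apply h₂.shift hΨ
      · intro x hx
        simp only [Finset.coe_union, Set.mem_union]
        exact Or.inl (Or.inr hx)
      · intro x hx
        simp only [Finset.coe_union, Set.mem_union]
        exact Or.inr (Or.inr hx)

theorem lrep_one {p : Fin w → MvPolynomial (Fin n) ℚ} {r s r' : Fin n → ℕ}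
    {A₁ A : Fin w → Fin w → MvPolynomial (Fin n) ℚ} {v₁ v : Fin w → MvPolynomial (Fin n) ℚ}
    {r₁ : Fin n → ℕ} {z₁ : Fin w → MvPolynomial (Fin n) ℚ}
    {S₁ : Finset (MvPolynomial (Fin n) ℚ)}
    (h₁ : LRep Ψ I d p r A₁ v₁ r₁ z₁ S₁) (hs : ∑ i ∈ I, s i = 0) (hr' : r' = r + s)
    (hcx : Cx d A v (r₁ + s)) (z : Fin w → MvPolynomial (Fin n) ℚ)
    (hz : ∀ a, z a = ∑ b, A a b * z₁ b + v a) :
    ∃ A v r₁ z' S, LRep Ψ I d z r' A v r₁ z' S := by
  have hs' : ∀ i ∈ I, s i = 0 := fun i hi => (Finset.sum_eq_zero_iff.mp hs) i hi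
  have e6 : ∑ i ∈ I, (r + s) i = ∑ i ∈ I, r i := by
    have : ∑ i ∈ I, (r + s) i = ∑ i ∈ I, r i + ∑ i ∈ I, s i := by
      rw [← Finset.sum_add_distrib]; rfl
    rw [this, hs, add_zero]
  subst hr'
  refine ⟨A, v, r₁ + s, z₁, S₁, ⟨hcx, fun i => Nat.add_le_add_right (h₁.le i) _, fun i hi => ?_,
    hz, ?_, ?_, h₁.mem⟩⟩
  · rw [Pi.add_apply, h₁.zero i hi, hs' i hi]
  · rw [e6]; exact h₁.card
  · intro x hx
    rcases h₁.cls x hx with h | ⟨p', r', a1, a2, a3⟩
    · exact Or.inl h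
    · exact Or.inr ⟨p', r', a1, fun i => (a2 i).trans (Nat.le_add_right _ _), a3⟩

variable (Ψ I)

/-- **Local representation.** -/
theorem exists_lrep (hΨ : ∀ i, i ∉ I → Ψ (X i) = C (X i))
    (hΨ' : ∀ i, Ψ (X i) ∈ coefAlg (Algebra.adjoin ℚ {(X i : MvPolynomial (Fin n) ℚ)}))
    {p : Fin w → MvPolynomial (Fin n) ℚ} {r : Fin n → ℕ} (h : Formula w n d p r) :
    ∃ A v r₁ z S, LRep Ψ I d p r A v r₁ z S := by
  classical
  induction h with
  | const v =>
    exact ⟨_, _, _, 0, ∅, ⟨cx_zero (Formula.const v), fun _ => le_rfl, fun _ _ => rfl,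
      fun a => by simp, Or.inl ⟨by simp, rfl⟩, by simp, fun a => by
        rw [Pi.zero_apply, map_zero]; exact Subalgebra.zero_mem _⟩⟩
  | leaf i F hF =>
    by_cases hi : i ∈ I
    · have hsum : ∑ i' ∈ I, (Pi.single i 1 : Fin n → ℕ) i' = 1 := by
        rw [Finset.sum_eq_single i]
        · simp
        · intro b _ hb; exact Pi.single_eq_of_ne hb 1
        · intro h; exact absurd hi h
      refine ⟨_, _, _, fun a => Polynomial.aeval (X i) (F a), {X i}, ⟨cx_one,
        fun _ => Nat.zero_le _, fun _ _ => rfl, fun a => ?_, Or.inr ?_, ?_, ?_⟩⟩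
      · simp
      · rw [hsum, Finset.card_singleton, one_mul]
      · intro s hs
        left
        exact ⟨i, Finset.mem_singleton.mp hs⟩
      · intro a
        rw [← Polynomial.aeval_algHom_apply]
        have h1 := hΨ' i
        rw [Finset.coe_singleton]
        exact (Algebra.adjoin_le (Set.singleton_subset_iff.mpr h1))
          (Polynomial.aeval_mem_adjoin_singleton ℚ (Ψ (X i)))
    · have hsum : ∑ i' ∈ I, (Pi.single i 1 : Fin n → ℕ) i' = 0 := by
        apply Finset.sum_eq_zero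
        intro b hb
        exact Pi.single_eq_of_ne (by rintro rfl; exact hi hb) 1
      refine ⟨_, _, _, 0, ∅, ⟨cx_zero (Formula.leaf i F hF), fun _ => le_rfl, fun b hb => ?_,
        fun a => by simp, Or.inl ⟨hsum, rfl⟩, by simp, fun a => by
          rw [Pi.zero_apply, map_zero]; exact Subalgebra.zero_mem _⟩⟩
      exact Pi.single_eq_of_ne (by rintro rfl; exact hi hb) 1
  | @add p q r s hp0 hq0 hp hq =>
    obtain ⟨A₁, v₁, r₁, z₁, S₁, h₁⟩ := hp
    obtain ⟨A₂, v₂, r₂, z₂, S₂, h₂⟩ := hq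
    by_cases hs : ∑ i ∈ I, s i = 0
    · apply lrep_one h₁ hs rfl (cx_add h₁.cx hq0)
      intro a
      rw [Pi.add_apply, Pi.add_apply, h₁.eq a, add_assoc]
    by_cases hr : ∑ i ∈ I, r i = 0
    · have h3 : q + p = p + q := add_comm _ _
      rw [← h3]
      apply lrep_one h₂ hr (add_comm _ _) (cx_add h₂.cx hp0)
      intro a
      rw [Pi.add_apply, Pi.add_apply, h₂.eq a, add_assoc]
    · apply lrep_both hΨ h₁ h₂ hr hs
      intro S' h1 h2 a
      rw [Pi.add_apply, map_add]
      exact Subalgebra.add_mem _ (h1 a) (h2 a)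
  | @gate B p q r s hp0 hq0 hp hq =>
    obtain ⟨A₁, v₁, r₁, z₁, S₁, h₁⟩ := hp
    obtain ⟨A₂, v₂, r₂, z₂, S₂, h₂⟩ := hq
    have key : ∀ (B : Fin w → Fin w → Fin w → ℚ) (A : Fin w → Fin w → MvPolynomial (Fin n) ℚ)
        (v z p q : Fin w → MvPolynomial (Fin n) ℚ), (∀ a, p a = ∑ b, A a b * z b + v a) →
        ∀ a, ∑ b, ∑ c, C (B a b c) * p b * q c =
          ∑ b, (∑ b', ∑ c, C (B a b' c) * A b' b * q c) * z b +
            ∑ b', ∑ c, C (B a b' c) * v b' * q c := by
      intro B A v z p q hp a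
      have h1 : ∀ b' c, C (B a b' c) * p b' * q c =
          ∑ b, C (B a b' c) * A b' b * q c * z b + C (B a b' c) * v b' * q c := by
        intro b' c
        rw [hp b', mul_add, add_mul, Finset.mul_sum, Finset.sum_mul]
        congr 1
        apply Finset.sum_congr rfl
        intro b _
        ring
      simp only [h1, Finset.sum_add_distrib]
      congr 1
      simp only [Finset.sum_mul]
      rw [Finset.sum_comm]
      rw [Finset.sum_comm]
      symm
      rw [Finset.sum_comm]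
      apply Finset.sum_congr rfl
      intro b' _
      exact Finset.sum_comm
    by_cases hs : ∑ i ∈ I, s i = 0
    · exact lrep_one h₁ hs rfl (cx_gate B h₁.cx hq0) _ (key B A₁ v₁ z₁ p q h₁.eq)
    by_cases hr : ∑ i ∈ I, r i = 0
    · apply lrep_one h₂ hr (add_comm _ _) (cx_gate (fun a b c => B a c b) h₂.cx hp0)
      intro a
      rw [← key (fun a b c => B a c b) A₂ v₂ z₂ q p h₂.eq a, Finset.sum_comm]
      apply Finset.sum_congr rfl
      intro b _
      apply Finset.sum_congr rfl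
      intro c _
      ring
    · apply lrep_both hΨ h₁ h₂ hr hs
      intro S' h1 h2 a
      rw [map_sum]
      refine Subalgebra.sum_mem _ fun b _ => ?_
      rw [map_sum]
      refine Subalgebra.sum_mem _ fun c _ => ?_
      rw [map_mul, map_mul]
      refine Subalgebra.mul_mem _ (Subalgebra.mul_mem _ ?_ (h1 b)) (h2 c)
      have := Ψ.commutes (B a b c)
      rw [MvPolynomial.algebraMap_eq] at this
      rw [this]
      exact Subalgebra.algebraMap_mem _ _

end Pool.Agent.Helper8.T2
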