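import Pool.Agent.Helper8.Tree.Stmt

/-!
The class of polynomials computed by read-k vector formulas.
-/

namespace Pool.Agent.Helper8.T2

open ReadKTree

/-- `RK w n d κ f`: the polynomial `f` is a coordinate of a vector of `w` polynomials which is
computed by a vector formula with leaves of degree at most `d` (see `Formula`) in which every
variable is carried by at most `κ` leaves. -/
def RK (w n d κ : ℕ) (f : MvPolynomial (Fin n) ℚ) : Prop :=
  ∃ (p : Fin w → MvPolynomial (Fin n) ℚ) (r : Fin n → ℕ), Formula w n d p r ∧
    (∀ i, r i ≤ κ) ∧ ∃ a, p a = f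

end Pool.Agent.Helper8.T2
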